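import Pool.Agent.H62.Id3

set_option autoImplicit false

namespace Pool.Agent.Results.MP_02df5b_lc.Classify

open Pool.Agent.H62.Ic Cardinal

/-- The complexity of the index sets D(R) for all cardinality and measure properties R. -/
theorem result :
    (∀ c : ℕ,
      Complete (Sig 2) (DS fun S => ((c + 1 : ℕ) : Cardinal) ≤ #S) ∧
      Complete (Sig 2) (DS fun S => (c : Cardinal) < #S) ∧
      Complete (PiS 2) (DS fun S => #S ≤ (c : Cardinal)) ∧
      Complete (PiS 2) (DS fun S => #S < ((c + 1 : ℕ) : Cardinal)) ∧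
      Complete (PiS 2) (DS fun S => #S = 0) ∧
      Complete (Diff 2) (DS fun S => #S = ((c + 1 : ℕ) : Cardinal))) ∧
    (Complete (Sig 3) (DS fun S => #S < ℵ₀) ∧ Complete (PiS 3) (DS fun S => ℵ₀ ≤ #S) ∧
      Complete Pi11 (DS fun S => #S = ℵ₀)) ∧
    (∀ κ : Cardinal,
      (ℵ₀ ≤ κ → κ < 𝔠 →
        Complete Pi11 (DS fun S => #S ≤ κ) ∧ Complete Sig11 (DS fun S => κ < #S)) ∧
      (ℵ₀ < κ → κ ≤ 𝔠 →
        Complete Pi11 (DS fun S => #S < κ) ∧ Complete Sig11 (DS fun S => κ ≤ #S)) ∧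
      (ℵ₀ < κ → κ < 𝔠 → DS (fun S => #S = κ) = ∅)) ∧
    Complete Sig11 (DS fun S => #S = 𝔠) ∧
    (∀ A : Set ℕ, Sig 0 A ∨ Sig 1 A ∨ PiS 1 A → DCE (val A)) ∧
    (∀ A : Set ℕ, DCE (val A) →
      (val A < 1 → Complete (Sig 2) (DS fun S => val A < mu.real S) ∧
        Complete (PiS 2) (DS fun S => mu.real S ≤ val A)) ∧
      (0 < val A → Complete (Sig 2) (DS fun S => mu.real S < val A) ∧
        Complete (PiS 2) (DS fun S => val A ≤ mu.real S)) ∧
      Complete (PiS 2) (DS fun S => mu.real S = val A)) ∧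
    (∀ A : Set ℕ, ¬ DCE (val A) →
      DS (fun S => mu.real S = val A) = ∅ ∧
      DS (fun S => val A ≤ mu.real S) = DS (fun S => val A < mu.real S) ∧
      DS (fun S => mu.real S ≤ val A) = (DS fun S => val A < mu.real S)ᶜ ∧
      DS (fun S => mu.real S < val A) = (DS fun S => val A < mu.real S)ᶜ ∧
      TuringEquivalent (chi (DS fun S => val A < mu.real S)) (chi (joinK A))) :=
  ⟨card_finite, card_aleph0, card_big, card_cont, fun _ => dce_val,
    fun A h => dce_case h (val_nonneg A) (val_le_one A), fun _ => nondce_case⟩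

end Pool.Agent.Results.MP_02df5b_lc.Classify
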